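import Mathlib

/-! A Riemannian 4-manifold with `(L_3)` but without `(L_2)`. -/

namespace Pool.Agent.H.MP_9e0eae_gt

open Finset Function

variable {n k : ℕ}

/-- The partial derivative `∂_i F` at `x`. -/
noncomputable def pd (i : Fin n) (F : (Fin n → ℝ) → ℝ) (x : Fin n → ℝ) : ℝ :=
  lineDeriv ℝ F x (Pi.single i 1)

/-- Christoffel symbols `Γ^l_(ij)` of the metric `g` in the standard coordinates. -/
noncomputable def chr (g : (Fin n → ℝ) → Matrix (Fin n) (Fin n) ℝ) (l i j : Fin n)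
    (x : Fin n → ℝ) : ℝ :=
  (∑ m, (g x)⁻¹ l m * (pd i (fun y => g y j m) x + pd j (fun y => g y i m) x -
    pd m (fun y => g y i j) x)) / 2

/-- The `∂_l`-component of `R(∂_i, ∂_j) ∂_m`, with `R(X,Y) = ∇_X ∇_Y - ∇_Y ∇_X - ∇_[X,Y]`. -/
noncomputable def curv (g : (Fin n → ℝ) → Matrix (Fin n) (Fin n) ℝ) (x : Fin n → ℝ)
    (i j m l : Fin n) : ℝ :=
  pd i (chr g l j m) x - pd j (chr g l i m) x +
    ∑ s, (chr g l i s x * chr g s j m x - chr g l j s x * chr g s i m x)

/-- Components of `R(∂_i, ∂_j) T` for a `(0,k)`-tensor `T` (action as a derivation). -/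
noncomputable def curvT (g : (Fin n → ℝ) → Matrix (Fin n) (Fin n) ℝ) (x : Fin n → ℝ)
    (i j : Fin n) (T : (Fin k → Fin n) → ℝ) (I : Fin k → Fin n) : ℝ :=
  -∑ p, ∑ l, curv g x i j (I p) l * T (update I p l)

/-- Components of `Ric_L(T)`; the trace over an orthonormal basis is contraction with `g⁻¹`. -/
noncomputable def ricL (g : (Fin n → ℝ) → Matrix (Fin n) (Fin n) ℝ) (x : Fin n → ℝ)
    (T : (Fin k → Fin n) → ℝ) (I : Fin k → Fin n) : ℝ :=
  ∑ p, ∑ a, ∑ b, (g x)⁻¹ a b * curvT g x a (I p) T (update I p b)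

/-- Condition `(L_k)` at the point `x`: `g(Ric_L T, T) ≥ 0` for all symmetric `(0,k)`-tensors. -/
def CondL (g : (Fin n → ℝ) → Matrix (Fin n) (Fin n) ℝ) (k : ℕ) (x : Fin n → ℝ) : Prop :=
  ∀ T : (Fin k → Fin n) → ℝ, (∀ (σ : Equiv.Perm (Fin k)) (I : Fin k → Fin n), T (I ∘ σ) = T I) →
    0 ≤ ∑ I : Fin k → Fin n, ∑ J : Fin k → Fin n, (∏ p, (g x)⁻¹ (I p) (J p)) * ricL g x T I * T J

/-- twice the logarithms of the Lame coefficients -/
noncomputable def ph (x : Fin 4 → ℝ) : Fin 4 → ℝ :=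
  ![0, -x 0 ^ 2, x 0 / 5, x 0 / 5 - x 2 ^ 2]

/-- first derivatives, halved -/
noncomputable def d1 (x : Fin 4 → ℝ) : Fin 4 → Fin 4 → ℝ :=
  ![![0, 0, 0, 0], ![-x 0, 0, 0, 0], ![1 / 10, 0, 0, 0], ![1 / 10, 0, -x 2, 0]]

/-- second derivatives, halved -/
def d2 (i j m : Fin 4) : ℝ :=
  if (i = 1 ∧ j = 0 ∧ m = 0) ∨ (i = 3 ∧ j = 2 ∧ m = 2) then -1 else 0

/-- the metric -/
noncomputable def g0 (x : Fin 4 → ℝ) : Matrix (Fin 4) (Fin 4) ℝ :=
  Matrix.diagonal fun i => Real.exp (ph x i)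

lemma coord (x : Fin 4 → ℝ) (i m : Fin 4) :
    HasDerivAt (fun t : ℝ => (x + t • Pi.single m (1 : ℝ) : Fin 4 → ℝ) i)
      (if i = m then 1 else 0) 0 := by
  simpa [Pi.single_apply] using
    ((hasDerivAt_id (0 : ℝ)).mul_const (if i = m then (1 : ℝ) else 0)).const_add (x i)

lemma hph (x : Fin 4 → ℝ) (i m : Fin 4) :
    HasDerivAt (fun t : ℝ => ph (x + t • Pi.single m (1 : ℝ)) i) (2 * d1 x i m) 0 := by
  have h0 := coord x 0 m
  have h2 := coord x 2 m
  fin_cases i
  · exact (hasDerivAt_const (0 : ℝ) (0 : ℝ)).congr_deriv (by fin_cases m <;> simp [d1])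
  · exact (h0.fun_pow 2).fun_neg.congr_deriv (by fin_cases m <;> simp [d1])
  · exact (h0.div_const 5).congr_deriv (by fin_cases m <;> simp [d1]; norm_num)
  · exact ((h0.div_const 5).fun_sub (h2.fun_pow 2)).congr_deriv
      (by fin_cases m <;> simp [d1]; norm_num)

lemma hd1 (x : Fin 4 → ℝ) (i j m : Fin 4) :
    HasDerivAt (fun t : ℝ => d1 (x + t • Pi.single m (1 : ℝ)) i j) (d2 i j m) 0 := by
  have h0 := (coord x 0 m).fun_neg
  have h2 := (coord x 2 m).fun_neg
  fin_cases i <;> fin_cases j <;> first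
    | exact (hasDerivAt_const (0 : ℝ) _).congr_deriv (by simp [d2])
    | exact h0.congr_deriv (by fin_cases m <;> simp [d2])
    | exact h2.congr_deriv (by fin_cases m <;> simp [d2])

lemma ginv (x : Fin 4 → ℝ) : (g0 x)⁻¹ = Matrix.diagonal fun i => (Real.exp (ph x i))⁻¹ := by
  refine Matrix.inv_eq_left_inv ?_
  simp [g0, Matrix.diagonal_mul_diagonal]

lemma pd_g (x : Fin 4 → ℝ) (i j m : Fin 4) : pd m (fun y => g0 y i j) x =
    if i = j then 2 * d1 x i m * Real.exp (ph x i) else 0 := by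
  by_cases h : i = j
  · subst h
    have := (hph x i m).exp
    simp only [zero_smul, add_zero] at this
    simp only [pd, g0, Matrix.diagonal_apply_eq, lineDeriv, this.deriv, if_true]
    ring
  · simp [pd, g0, h, lineDeriv]

lemma chr_eq (l i j : Fin 4) : chr g0 l i j = fun x => (if l = j then d1 x l i else 0) +
    (if l = i then d1 x l j else 0) -
      (if i = j then d1 x i l * Real.exp (ph x i - ph x l) else 0) := by
  ext x
  simp only [chr, ginv, pd_g, Matrix.diagonal_apply, ite_mul, zero_mul, sum_ite_eq, mem_univ,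
    if_true, Real.exp_sub]
  simp only [@eq_comm _ l]
  have := Real.exp_pos (ph x l)
  split_ifs <;> subst_vars <;> field_simp <;> ring

lemma pd_chr (x : Fin 4 → ℝ) (l i j m : Fin 4) : pd m (chr g0 l i j) x =
    (if l = j then d2 l i m else 0) + (if l = i then d2 l j m else 0) - (if i = j then
      (d2 i l m + d1 x i l * (2 * d1 x i m - 2 * d1 x l m)) * Real.exp (ph x i - ph x l)
      else 0) := by
  rw [chr_eq, pd, lineDeriv]
  refine HasDerivAt.deriv (HasDerivAt.fun_sub (HasDerivAt.fun_add ?_ ?_) ?_) <;> split_ifs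
  exacts [hd1 x l i m, hasDerivAt_const _ _, hd1 x l j m, hasDerivAt_const _ _, by
    refine ((hd1 x i l m).fun_mul ((hph x i m).fun_sub (hph x l m)).exp).congr_deriv ?_
    simp only [zero_smul, add_zero]
    ring, hasDerivAt_const _ _]

/-- sectional curvatures of the coordinate planes -/
noncomputable def KK (A B u v : ℝ) : Fin 4 → Fin 4 → ℝ :=
  ![![0, A, u, u], ![A, 0, v, v], ![u, v, 0, B], ![u, v, B, 0]]

lemma curv_eq (x : Fin 4 → ℝ) (i j m l : Fin 4) : curv g0 x i j m l =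
    KK (1 - x 0 ^ 2) ((1 - x 2 ^ 2) / Real.exp (ph x 2) - 1 / 100) (-1 / 100) (x 0 / 10) i j *
      ((if j = m ∧ i = l then Real.exp (ph x j) else 0) -
        if i = m ∧ j = l then Real.exp (ph x i) else 0) := by
  simp only [curv, pd_chr]
  simp only [chr_eq, Real.exp_sub, Fin.sum_univ_four]
  have h0 : Real.exp (ph x 0) = 1 := by simp [ph]
  have h1 := (Real.exp_pos (ph x 1)).ne'
  have h2 := (Real.exp_pos (ph x 2)).ne'
  have h3 := (Real.exp_pos (ph x 3)).ne'
  fin_cases i <;> fin_cases j <;> fin_cases m <;> fin_cases l <;>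
    simp [d1, d2, KK, h0] <;> field_simp <;> ring

end Pool.Agent.H.MP_9e0eae_gt
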